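import Mathlib

set_option linter.all false

namespace Pool.Agent.H51.DM

open Matrix

noncomputable section

variable {n : ℕ}

open scoped MatrixOrder Matrix.Norms.L2Operator in
/-- a factorisation of a positive definite matrix. -/
theorem factor {A : Matrix (Fin n) (Fin n) ℝ} (hA : A.PosDef) :
    ∃ w : Matrix (Fin n) (Fin n) ℝ, A = wᴴ * w ∧ IsUnit w := by
  obtain ⟨w, hw⟩ := CStarAlgebra.nonneg_iff_eq_star_mul_self.mp hA.posSemidef.nonneg
  refine ⟨w, hw, ?_⟩
  rw [Matrix.isUnit_iff_isUnit_det, isUnit_iff_ne_zero]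
  intro h0
  have h1 := hA.det_pos
  rw [hw, det_mul, h0, mul_zero] at h1
  exact lt_irrefl _ h1

theorem tr_zero {A B D : Matrix (Fin n) (Fin n) ℝ} (hA : A.PosDef) (hB : B.PosDef)
    (hD : D.IsSymm) (h : (D * A * D * B).trace = 0) : D = 0 := by
  obtain ⟨w, hw, hwu⟩ := factor hA
  obtain ⟨y, hy, hyu⟩ := factor hB
  have hD' : Dᴴ = D := by rw [conjTranspose_eq_transpose_of_trivial]; exact hD
  have h1 : ((y * D * wᴴ) * (y * D * wᴴ)ᴴ).trace = 0 := by
    rw [conjTranspose_mul, conjTranspose_mul, conjTranspose_conjTranspose, hD', ← h, hw, hy]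
    rw [show y * D * wᴴ * (w * (D * yᴴ)) = y * (D * wᴴ * w * D * yᴴ) by
      simp only [Matrix.mul_assoc], Matrix.trace_mul_comm]
    simp only [Matrix.mul_assoc]
  rw [trace_mul_conjTranspose_self_eq_zero_iff] at h1
  have h2 : y * D = 0 := by
    have hwu' : IsUnit wᴴ := hwu.star
    exact (hwu'.mul_left_eq_zero).mp h1
  exact (hyu.mul_right_eq_zero).mp h2

theorem trace_entries {X Y : Matrix (Fin n) (Fin n) ℝ} (hY : Y.IsSymm)
    (h : ∀ i j, X i j = 0 ∨ Y i j = 0) : (X * Y).trace = 0 := by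
  rw [Matrix.trace]
  refine Finset.sum_eq_zero fun i _ => ?_
  rw [diag_apply, mul_apply]
  refine Finset.sum_eq_zero fun j _ => ?_
  rcases h i j with h1 | h1
  · rw [h1, zero_mul]
  · have : Y j i = Y i j := by
      have := congrFun (congrFun hY i) j
      simpa using this
    rw [this, h1, mul_zero]

theorem symm_of_posDef {S : Matrix (Fin n) (Fin n) ℝ} (hS : S.PosDef) : S.IsSymm := by
  have := hS.isHermitian
  unfold IsHermitian at this
  rwa [conjTranspose_eq_transpose_of_trivial] at this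

/-- two positive definite matrices which at every place agree, or have inverses that agree. -/
theorem eq_of_entries {S T : Matrix (Fin n) (Fin n) ℝ} (hS : S.PosDef) (hT : T.PosDef)
    (h : ∀ i j, S i j = T i j ∨ S⁻¹ i j = T⁻¹ i j) : S = T := by
  have hSu : IsUnit S.det := (Matrix.isUnit_iff_isUnit_det _).mp hS.isUnit
  have hTu : IsUnit T.det := (Matrix.isUnit_iff_isUnit_det _).mp hT.isUnit
  have hsym : (S⁻¹ - T⁻¹).IsSymm := (symm_of_posDef hS.inv).sub (symm_of_posDef hT.inv)
  have h1 : ((S - T) * (S⁻¹ - T⁻¹)).trace = 0 := by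
    apply trace_entries hsym
    intro i j
    rcases h i j with h | h
    · left; rw [Matrix.sub_apply, h, sub_self]
    · right; rw [Matrix.sub_apply, h, sub_self]
  have h2 : S⁻¹ - T⁻¹ = -(S⁻¹ * (S - T) * T⁻¹) := by
    rw [mul_sub, sub_mul, Matrix.nonsing_inv_mul _ hSu, Matrix.mul_assoc, Matrix.mul_nonsing_inv _ hTu,
      one_mul, mul_one]
    abel
  rw [h2, mul_neg, trace_neg, neg_eq_zero] at h1
  have h3 := tr_zero hS.inv hT.inv ((symm_of_posDef hS).sub (symm_of_posDef hT)) (by
    rw [← h1]; simp only [Matrix.mul_assoc])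
  exact sub_eq_zero.mp h3

/-- the infinitesimal version. -/
theorem zero_of_entries {Om Y : Matrix (Fin n) (Fin n) ℝ} (hO : Om.PosDef) (hY : Y.IsSymm)
    (h : ∀ i j, Y i j = 0 ∨ (Om * Y * Om) i j = 0) : Y = 0 := by
  have hO' : Omᵀ = Om := symm_of_posDef hO
  have hY' : Yᵀ = Y := hY
  have h1 : (Y * (Om * Y * Om)).trace = 0 := by
    apply trace_entries _ h
    unfold IsSymm
    rw [transpose_mul, transpose_mul, hO', hY', Matrix.mul_assoc]
  exact tr_zero hO hO hY (by rw [← h1]; simp only [Matrix.mul_assoc])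

/-! ## openness -/

theorem posDef_one_add {N : Matrix (Fin n) (Fin n) ℝ} (hN : N.IsSymm)
    (h : ∑ i, ∑ j, |N i j| < 1) : (1 + N).PosDef := by
  refine Matrix.PosDef.of_dotProduct_mulVec_pos ?_ ?_
  · unfold IsHermitian
    rw [conjTranspose_eq_transpose_of_trivial, transpose_add, transpose_one]
    rw [show Nᵀ = N from hN]
  · intro x hx
    have hxx : 0 < ∑ i, x i ^ 2 := by
      obtain ⟨i, hi⟩ := Function.ne_iff.mp hx
      exact Finset.sum_pos' (fun i _ => sq_nonneg _) ⟨i, Finset.mem_univ _, by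
        have : x i ≠ 0 := hi
        positivity⟩
    have h1 : star x ⬝ᵥ (1 + N) *ᵥ x = ∑ i, x i ^ 2 + ∑ i, ∑ j, N i j * (x i * x j) := by
      rw [add_mulVec, one_mulVec, dotProduct_add]
      congr 1
      · simp only [dotProduct, star_trivial, sq]
      · simp only [dotProduct, star_trivial, mulVec, Finset.mul_sum]
        refine Finset.sum_congr rfl fun i _ => Finset.sum_congr rfl fun j _ => ?_
        ring
    rw [h1]
    have h2 : ∀ i j, -(|N i j| * ∑ k, x k ^ 2) ≤ N i j * (x i * x j) := by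
      intro i j
      have h3 : |x i * x j| ≤ ∑ k, x k ^ 2 := by
        have hi : x i ^ 2 ≤ ∑ k, x k ^ 2 :=
          Finset.single_le_sum (f := fun k => x k ^ 2) (fun k _ => sq_nonneg _) (Finset.mem_univ i)
        have hj : x j ^ 2 ≤ ∑ k, x k ^ 2 :=
          Finset.single_le_sum (f := fun k => x k ^ 2) (fun k _ => sq_nonneg _) (Finset.mem_univ j)
        rw [abs_le]
        constructor <;> nlinarith [sq_nonneg (x i + x j), sq_nonneg (x i - x j)]
      have h4 : |N i j * (x i * x j)| ≤ |N i j| * ∑ k, x k ^ 2 := by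
        rw [abs_mul]
        exact mul_le_mul_of_nonneg_left h3 (abs_nonneg _)
      exact (abs_le.mp h4).1
    have h5 : -((∑ i, ∑ j, |N i j|) * ∑ k, x k ^ 2) ≤ ∑ i, ∑ j, N i j * (x i * x j) := by
      rw [Finset.sum_mul, ← Finset.sum_neg_distrib]
      refine Finset.sum_le_sum fun i _ => ?_
      rw [Finset.sum_mul, ← Finset.sum_neg_distrib]
      exact Finset.sum_le_sum fun j _ => h2 i j
    nlinarith

theorem posDef_nhds {S : Matrix (Fin n) (Fin n) ℝ} (hS : S.PosDef) :
    ∀ᶠ T in nhds S, T.IsSymm → T.PosDef := by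
  obtain ⟨w, hw, hwu⟩ := factor hS
  obtain ⟨v, hv1, hv2⟩ : ∃ v : Matrix (Fin n) (Fin n) ℝ, v * w = 1 ∧ w * v = 1 := by
    obtain ⟨u, hu⟩ := hwu
    exact ⟨↑u⁻¹, by rw [← hu]; simp, by rw [← hu]; simp⟩
  have hc : Continuous (fun T : Matrix (Fin n) (Fin n) ℝ =>
      ∑ i, ∑ j, |(vᴴ * (T - S) * v) i j|) := by
    refine continuous_finset_sum _ fun i _ => continuous_finset_sum _ fun j _ => ?_
    refine continuous_abs.comp ?_
    have : Continuous (fun T : Matrix (Fin n) (Fin n) ℝ => vᴴ * (T - S) * v) :=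
      ((continuous_const.matrix_mul (continuous_id.sub continuous_const)).matrix_mul
        continuous_const)
    exact this.matrix_elem i j
  have h0 : ∑ i, ∑ j, |(vᴴ * (S - S) * v) i j| = 0 := by simp
  have h1 : ∀ᶠ T in nhds S, ∑ i, ∑ j, |(vᴴ * (T - S) * v) i j| < 1 := by
    have := hc.tendsto S
    rw [h0] at this
    exact this.eventually_lt_const one_pos
  filter_upwards [h1] with T hT hsym
  have hN : (vᴴ * (T - S) * v).IsSymm := by
    unfold IsSymm
    rw [conjTranspose_eq_transpose_of_trivial, transpose_mul, transpose_mul, transpose_transpose,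
      transpose_sub, show Tᵀ = T from hsym, show Sᵀ = S from symm_of_posDef hS, Matrix.mul_assoc]
  have h2 := posDef_one_add hN hT
  have h3 : T = wᴴ * (1 + vᴴ * (T - S) * v) * w := by
    have e1 : wᴴ * vᴴ = 1 := by rw [← conjTranspose_mul, hv1, conjTranspose_one]
    rw [mul_add, add_mul, mul_one, ← hw]
    rw [show wᴴ * (vᴴ * (T - S) * v) * w = (wᴴ * vᴴ) * (T - S) * (v * w) by
      simp only [Matrix.mul_assoc], e1, hv1, one_mul, mul_one]
    abel
  rw [h3]
  apply h2.conjTranspose_mul_mul_same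
  intro a b hab
  have := congrArg (fun z => v *ᵥ z) hab
  simpa [mulVec_mulVec, hv1] using this

end

end Pool.Agent.H51.DM
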