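import Pool.Agent.H51.DM.A

set_option linter.all false

namespace Pool.Agent.H51.DM

open Matrix

noncomputable section

variable {n : ℕ}

/-- the symmetric elementary matrix. -/
def Es (i j : Fin n) : Matrix (Fin n) (Fin n) ℝ := single i j 1 + single j i 1

theorem Es_symm (i j : Fin n) : (Es i j).IsSymm := by
  unfold Es IsSymm
  rw [transpose_add, transpose_single, transpose_single, add_comm]

theorem Es_apply (i j a b : Fin n) : Es i j a b =
    (if i = a ∧ j = b then 1 else 0) + (if j = a ∧ i = b then 1 else 0) := by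
  unfold Es
  rw [Matrix.add_apply, single_apply, single_apply]

theorem det_var {S : Matrix (Fin n) (Fin n) ℝ} (hS : S.PosDef) (i j : Fin n) (t : ℝ) :
    (S + t • Es i j).det
      = S.det * ((1 + t * S⁻¹ i j) ^ 2 - t ^ 2 * (S⁻¹ i i * S⁻¹ j j)) := by
  classical
  have hSu : IsUnit S.det := (Matrix.isUnit_iff_isUnit_det _).mp hS.isUnit
  let U : Matrix (Fin n) (Fin 2) ℝ := fun a b => if b = 0 then (if i = a then 1 else 0)
    else (if j = a then 1 else 0)
  let V : Matrix (Fin 2) (Fin n) ℝ := fun b a => if b = 0 then (if j = a then 1 else 0)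
    else (if i = a then 1 else 0)
  have hUV : Es i j = U * V := by
    ext a b
    rw [Es_apply, mul_apply, Fin.sum_univ_two]
    show _ = (if i = a then 1 else 0) * (if j = b then 1 else 0)
      + (if j = a then 1 else 0) * (if i = b then 1 else 0)
    rw [ite_and, ite_and]
    congr 1
    · split_ifs <;> simp
    · split_ifs <;> simp
  have h1 : S + t • Es i j = S * (1 + (t • (S⁻¹ * U)) * V) := by
    rw [mul_add, mul_one, Matrix.smul_mul, Matrix.mul_smul, ← Matrix.mul_assoc,
      ← Matrix.mul_assoc, Matrix.mul_nonsing_inv _ hSu, Matrix.one_mul, hUV]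
  rw [h1, det_mul, det_one_add_mul_comm, det_fin_two]
  have hsym : ∀ a b, S⁻¹ a b = S⁻¹ b a := by
    intro a b
    have := congrFun (congrFun (symm_of_posDef hS.inv) b) a
    simpa using this
  have e : ∀ a b : Fin 2, (V * (t • (S⁻¹ * U))) a b
      = t * S⁻¹ (if a = 0 then j else i) (if b = 0 then i else j) := by
    intro a b
    rw [mul_apply]
    simp only [Matrix.smul_apply, mul_apply, smul_eq_mul, U, V]
    fin_cases a <;> fin_cases b <;> simp
  simp only [Matrix.add_apply, e]
  simp
  rw [hsym j i]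
  left
  ring

/-- **maximum determinant completion**: the entries outside `F` are kept, the inverse vanishes
on `F`. -/
theorem exists_completion (F : SimpleGraph (Fin n)) {S0 : Matrix (Fin n) (Fin n) ℝ}
    (hS0 : S0.PosDef) : ∃ S : Matrix (Fin n) (Fin n) ℝ, S.PosDef ∧
      (∀ i j, ¬ F.Adj i j → S i j = S0 i j) ∧ (∀ i j, F.Adj i j → S⁻¹ i j = 0) := by
  classical
  set K : Set (Matrix (Fin n) (Fin n) ℝ) := {X | Xᵀ = X ∧ (∀ v : Fin n → ℝ, 0 ≤ v ⬝ᵥ X *ᵥ v) ∧
    ∀ i j, ¬ F.Adj i j → X i j = S0 i j} with hK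
  have hPSD : ∀ X ∈ K, X.PosSemidef := by
    intro X hX
    refine PosSemidef.of_dotProduct_mulVec_nonneg ?_ ?_
    · unfold IsHermitian
      rw [conjTranspose_eq_transpose_of_trivial]; exact hX.1
    · intro v
      simpa using hX.2.1 v
  have hclosed : IsClosed K := by
    have c1 : IsClosed {X : Matrix (Fin n) (Fin n) ℝ | Xᵀ = X} :=
      isClosed_eq continuous_id.matrix_transpose continuous_id
    have c2 : IsClosed {X : Matrix (Fin n) (Fin n) ℝ | ∀ v : Fin n → ℝ, 0 ≤ v ⬝ᵥ X *ᵥ v} := by
      rw [show {X : Matrix (Fin n) (Fin n) ℝ | ∀ v : Fin n → ℝ, 0 ≤ v ⬝ᵥ X *ᵥ v}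
        = ⋂ v : Fin n → ℝ, {X | 0 ≤ v ⬝ᵥ X *ᵥ v} by ext X; simp]
      refine isClosed_iInter fun v => isClosed_le continuous_const ?_
      exact (continuous_const.dotProduct (continuous_id.matrix_mulVec continuous_const))
    have c3 : IsClosed {X : Matrix (Fin n) (Fin n) ℝ | ∀ i j, ¬ F.Adj i j → X i j = S0 i j} := by
      rw [show {X : Matrix (Fin n) (Fin n) ℝ | ∀ i j, ¬ F.Adj i j → X i j = S0 i j}
        = ⋂ i, ⋂ j, ⋂ _ : ¬ F.Adj i j, {X | X i j = S0 i j} by ext X; simp]
      refine isClosed_iInter fun i => isClosed_iInter fun j => isClosed_iInter fun _ => ?_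
      exact isClosed_eq (continuous_id.matrix_elem i j) continuous_const
    exact c1.inter (c2.inter c3)
  have hdiag : ∀ X ∈ K, ∀ i, X i i = S0 i i := fun X hX i => hX.2.2 i i (F.irrefl)
  have hS0pos : ∀ i, 0 < S0 i i := fun i => hS0.diag_pos
  set m : ℝ := ∑ i, S0 i i with hm
  have hbound : ∀ X ∈ K, ∀ i j, X i j ∈ Set.Icc (-m) m := by
    intro X hX i j
    have hle : ∀ k, S0 k k ≤ m := fun k =>
      Finset.single_le_sum (f := fun k => S0 k k) (fun k _ => (hS0pos k).le) (Finset.mem_univ k)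
    by_cases hij : i = j
    · subst hij
      rw [hdiag X hX]
      have := hS0pos i
      have := hle i
      constructor <;> linarith
    · have hsym : X j i = X i j := by
        have := congrFun (congrFun hX.1 i) j
        simpa using this
      have q : ∀ e : ℝ, (Pi.single i 1 + e • Pi.single j 1 : Fin n → ℝ)
          ⬝ᵥ X *ᵥ (Pi.single i 1 + e • Pi.single j 1) = X i i + 2 * e * X i j + e ^ 2 * X j j := by
        intro e
        rw [mulVec_add, mulVec_smul, mulVec_single_one, mulVec_single_one, add_dotProduct,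
          smul_dotProduct, single_dotProduct, single_dotProduct]
        simp only [Pi.add_apply, Pi.smul_apply, smul_eq_mul, one_mul, Matrix.col_apply]
        rw [hsym]; ring
      have q1 := hX.2.1 (Pi.single i 1 + (1 : ℝ) • Pi.single j 1)
      have q2 := hX.2.1 (Pi.single i 1 + (-1 : ℝ) • Pi.single j 1)
      rw [q, hdiag X hX, hdiag X hX] at q1 q2
      have hsum : S0 i i + S0 j j ≤ m := by
        rw [hm, ← Finset.sum_pair (f := fun k => S0 k k) hij]
        exact Finset.sum_le_sum_of_subset_of_nonneg (Finset.subset_univ _)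
          (fun k _ _ => (hS0pos k).le)
      have := hS0pos i
      have := hS0pos j
      constructor <;> nlinarith
  have hcompact : IsCompact K := by
    have h1 : IsCompact (Set.univ.pi fun _ : Fin n => Set.univ.pi fun _ : Fin n =>
      Set.Icc (-m) m : Set (Fin n → Fin n → ℝ)) :=
      isCompact_univ_pi fun _ => isCompact_univ_pi fun _ => isCompact_Icc
    have h2 : K ⊆ (Set.univ.pi fun _ : Fin n => Set.univ.pi fun _ : Fin n =>
      Set.Icc (-m) m : Set (Fin n → Fin n → ℝ)) := fun X hX i _ j _ => hbound X hX i j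
    exact h1.of_isClosed_subset hclosed h2
  have hS0K : S0 ∈ K := ⟨symm_of_posDef hS0, fun v => by
    have := hS0.posSemidef.dotProduct_mulVec_nonneg v
    simpa using this, fun _ _ _ => rfl⟩
  obtain ⟨S, hSK, hSmax⟩ := hcompact.exists_isMaxOn ⟨S0, hS0K⟩
    (continuous_id.matrix_det.continuousOn (s := K))
  have hSmax' : ∀ X ∈ K, X.det ≤ S.det := fun X hX => hSmax hX
  have hdet : 0 < S.det := lt_of_lt_of_le hS0.det_pos (hSmax' S0 hS0K)
  have hSpd : S.PosDef := (hPSD S hSK).posDef_iff_det_ne_zero.mpr hdet.ne'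
  refine ⟨S, hSpd, hSK.2.2, ?_⟩
  intro i j hij
  have hc : Continuous (fun t : ℝ => S + t • Es i j) := by fun_prop
  have hev : ∀ᶠ t in nhds (0 : ℝ), (S + t • Es i j).PosDef := by
    have h1 := posDef_nhds hSpd
    have h2 : Filter.Tendsto (fun t : ℝ => S + t • Es i j) (nhds 0) (nhds S) := by
      have := hc.tendsto 0
      simpa using this
    filter_upwards [h2.eventually h1] with t ht
    apply ht
    have : (S + t • Es i j)ᵀ = S + t • Es i j := by
      rw [transpose_add, transpose_smul, show (Es i j)ᵀ = Es i j from Es_symm i j,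
        show Sᵀ = S from hSK.1]
    exact this
  have hmaxt : IsLocalMax (fun t : ℝ => (1 + t * S⁻¹ i j) ^ 2 - t ^ 2 * (S⁻¹ i i * S⁻¹ j j)) 0 := by
    filter_upwards [hev] with t ht
    have hmem : S + t • Es i j ∈ K := by
      refine ⟨symm_of_posDef ht, fun v => ?_, ?_⟩
      · have := ht.posSemidef.dotProduct_mulVec_nonneg v
        simpa using this
      · intro a b hab
        rw [Matrix.add_apply, Matrix.smul_apply, Es_apply, if_neg, if_neg, hSK.2.2 a b hab]
        · simp
        · rintro ⟨rfl, rfl⟩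
          exact hab hij.symm
        · rintro ⟨rfl, rfl⟩
          exact hab hij
    have h3 := hSmax' _ hmem
    rw [det_var hSpd] at h3
    have h4 : (1 + t * S⁻¹ i j) ^ 2 - t ^ 2 * (S⁻¹ i i * S⁻¹ j j) ≤ 1 := by
      by_contra hcon
      push Not at hcon
      nlinarith
    simpa using h4
  have hder : HasDerivAt (fun t : ℝ => (1 + t * S⁻¹ i j) ^ 2 - t ^ 2 * (S⁻¹ i i * S⁻¹ j j))
      (2 * S⁻¹ i j) 0 := by
    have h1 : HasDerivAt (fun t : ℝ => 1 + t * S⁻¹ i j) (S⁻¹ i j) 0 := by
      simpa using ((hasDerivAt_id (0 : ℝ)).mul_const (S⁻¹ i j)).const_add 1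
    have h2 := (h1.pow 2).sub (((hasDerivAt_id (0 : ℝ)).pow 2).mul_const (S⁻¹ i i * S⁻¹ j j))
    exact (show HasDerivAt (fun t : ℝ => (1 + t * S⁻¹ i j) ^ 2
      - t ^ 2 * (S⁻¹ i i * S⁻¹ j j)) _ 0 from h2).congr_deriv (by simp)
  have := hmaxt.hasDerivAt_eq_zero hder
  linarith

end

end Pool.Agent.H51.DM
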