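import Pool.Agent.H51.DM.B

set_option linter.all false

namespace Pool.Agent.H51.DM

open Matrix

noncomputable section

variable {n : ℕ}

attribute [local instance] Matrix.linftyOpNormedRing Matrix.linftyOpNormedAlgebra

/-- symmetric matrices supported on the edges of `K`. -/
def Sp (K : SimpleGraph (Fin n)) : Submodule ℝ (Matrix (Fin n) (Fin n) ℝ) where
  carrier := {X | Xᵀ = X ∧ ∀ i j, ¬ K.Adj i j → X i j = 0}
  add_mem' := by
    rintro X Y ⟨h1, h2⟩ ⟨h3, h4⟩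
    refine ⟨by rw [transpose_add, h1, h3], fun i j h => ?_⟩
    rw [Matrix.add_apply, h2 i j h, h4 i j h, add_zero]
  zero_mem' := ⟨transpose_zero, fun i j _ => rfl⟩
  smul_mem' := by
    rintro c X ⟨h1, h2⟩
    refine ⟨by rw [transpose_smul, h1], fun i j h => ?_⟩
    rw [Matrix.smul_apply, h2 i j h, smul_zero]

open Classical in
/-- projection to `Sp K`. -/
def pj (K : SimpleGraph (Fin n)) : Matrix (Fin n) (Fin n) ℝ →ₗ[ℝ] Sp K where
  toFun T := ⟨fun i j => if K.Adj i j then (T i j + T j i) / 2 else 0, by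
    refine ⟨?_, fun i j h => if_neg h⟩
    ext i j
    rw [transpose_apply]
    by_cases h : K.Adj i j
    · rw [if_pos h, if_pos h.symm, add_comm]
    · rw [if_neg h, if_neg (fun h' => h h'.symm)]⟩
  map_add' S T := by
    ext i j
    simp only [Submodule.coe_add, Matrix.add_apply]
    split_ifs <;> ring
  map_smul' c T := by
    ext i j
    simp only [Submodule.coe_smul, Matrix.smul_apply, smul_eq_mul, RingHom.id_apply]
    split_ifs <;> ring

theorem pj_apply_adj {K : SimpleGraph (Fin n)} {T : Matrix (Fin n) (Fin n) ℝ} (hT : Tᵀ = T)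
    {i j : Fin n} (h : K.Adj i j) : (pj K T : Matrix (Fin n) (Fin n) ℝ) i j = T i j := by
  have h0 : (pj K T : Matrix (Fin n) (Fin n) ℝ) i j = (T i j + T j i) / 2 := if_pos h
  rw [h0]
  have : T j i = T i j := by
    have := congrFun (congrFun hT i) j
    simpa using this
  rw [this]; ring

theorem pj_apply_not {K : SimpleGraph (Fin n)} {T : Matrix (Fin n) (Fin n) ℝ}
    {i j : Fin n} (h : ¬ K.Adj i j) : (pj K T : Matrix (Fin n) (Fin n) ℝ) i j = 0 := if_neg h

theorem pj_zero_iff {K : SimpleGraph (Fin n)} {T : Matrix (Fin n) (Fin n) ℝ} (hT : Tᵀ = T) :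
    pj K T = 0 ↔ ∀ i j, K.Adj i j → T i j = 0 := by
  constructor
  · intro h i j hij
    rw [← pj_apply_adj hT hij, h]
    rfl
  · intro h
    ext i j
    by_cases hij : K.Adj i j
    · rw [pj_apply_adj hT hij, h i j hij]; rfl
    · rw [pj_apply_not hij]; rfl

theorem pj_self {K : SimpleGraph (Fin n)} (s : Sp K) :
    pj K (s : Matrix (Fin n) (Fin n) ℝ) = s := by
  ext i j
  by_cases hij : K.Adj i j
  · rw [pj_apply_adj s.2.1 hij]
  · rw [pj_apply_not hij, s.2.2 i j hij]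

theorem continuous_pj (K : SimpleGraph (Fin n)) : Continuous (pj K) :=
  (pj K).continuous_of_finiteDimensional

variable (C F : SimpleGraph (Fin n))

/-- the matrix with given parameters. -/
def mt (p : Sp C × Sp F) : Matrix (Fin n) (Fin n) ℝ :=
  1 + ((p.1 : Matrix (Fin n) (Fin n) ℝ) + (p.2 : Matrix (Fin n) (Fin n) ℝ))

/-- the linear part of `mt`. -/
def mtL : (Sp C × Sp F) →L[ℝ] Matrix (Fin n) (Fin n) ℝ :=
  ((Sp C).subtypeL.comp (ContinuousLinearMap.fst ℝ _ _))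
    + ((Sp F).subtypeL.comp (ContinuousLinearMap.snd ℝ _ _))

theorem mt_eq (p : Sp C × Sp F) : mt C F p = 1 + mtL C F p := rfl

theorem mt_symm (p : Sp C × Sp F) : (mt C F p)ᵀ = mt C F p := by
  unfold mt
  rw [transpose_add, transpose_one, transpose_add, p.1.2.1, p.2.2.1]

theorem contDiff_mt : ContDiff ℝ ⊤ (mt C F) :=
  contDiff_const.add (mtL C F).contDiff

/-- the chart. -/
def Phi (p : Sp C × Sp F) : Sp C × Sp F := (p.1, pj F (Ring.inverse (mt C F p)))

theorem posDef_unit {S : Matrix (Fin n) (Fin n) ℝ} (hS : S.PosDef) :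
    ∃ u : (Matrix (Fin n) (Fin n) ℝ)ˣ, (u : Matrix (Fin n) (Fin n) ℝ) = S ∧
      ((u⁻¹ : (Matrix (Fin n) (Fin n) ℝ)ˣ) : Matrix (Fin n) (Fin n) ℝ) = S⁻¹ := by
  obtain ⟨u, hu⟩ := hS.isUnit
  exact ⟨u, hu, by rw [← hu, Matrix.coe_units_inv]⟩

theorem contDiffAt_Phi {p : Sp C × Sp F} (hp : (mt C F p).PosDef) : ContDiffAt ℝ ⊤ (Phi C F) p := by
  haveI : CompleteSpace (Matrix (Fin n) (Fin n) ℝ) := FiniteDimensional.complete ℝ _
  obtain ⟨u, hu, -⟩ := posDef_unit hp
  have h1 : ContDiffAt ℝ ⊤ (Ring.inverse : Matrix (Fin n) (Fin n) ℝ → _) (mt C F p) := by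
    rw [← hu]; exact contDiffAt_ringInverse ℝ u
  have h2 := h1.comp p (contDiff_mt C F).contDiffAt
  have h3 := ((LinearMap.toContinuousLinearMap (pj F)).contDiff (n := ⊤)).contDiffAt
    (x := Ring.inverse (mt C F p))
  exact contDiffAt_fst.prodMk (h3.comp p h2)

/-- the derivative of the chart. -/
def Phi' (Om : Matrix (Fin n) (Fin n) ℝ) : (Sp C × Sp F) →L[ℝ] (Sp C × Sp F) :=
  (ContinuousLinearMap.fst ℝ _ _).prod ((LinearMap.toContinuousLinearMap (pj F)).comp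
    ((-ContinuousLinearMap.mulLeftRight ℝ (Matrix (Fin n) (Fin n) ℝ) Om Om).comp (mtL C F)))

theorem hasFDerivAt_Phi {p : Sp C × Sp F} (hp : (mt C F p).PosDef) :
    HasFDerivAt (Phi C F) (Phi' C F (mt C F p)⁻¹) p := by
  haveI : CompleteSpace (Matrix (Fin n) (Fin n) ℝ) := FiniteDimensional.complete ℝ _
  obtain ⟨u, hu, hu'⟩ := posDef_unit hp
  have h1 : HasFDerivAt (mt C F) (mtL C F) p := (mtL C F).hasFDerivAt.const_add 1
  have h2 : HasFDerivAt (Ring.inverse : Matrix (Fin n) (Fin n) ℝ → _)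
      (-ContinuousLinearMap.mulLeftRight ℝ _ (mt C F p)⁻¹ (mt C F p)⁻¹) (mt C F p) := by
    have := hasFDerivAt_ringInverse (𝕜 := ℝ) u
    rw [hu, hu'] at this
    exact this
  have h3 := (LinearMap.toContinuousLinearMap (pj F)).hasFDerivAt.comp p (h2.comp p h1)
  exact hasFDerivAt_fst.prodMk h3

theorem Phi'_injective {Om : Matrix (Fin n) (Fin n) ℝ} (hO : Om.PosDef) :
    Function.Injective (Phi' C F Om) := by
  rw [injective_iff_map_eq_zero]
  rintro ⟨y1, y2⟩ hy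
  have hy1 : y1 = 0 := congrArg Prod.fst hy
  subst hy1
  have hy2 : pj F (-(Om * (((0 : Sp C) : Matrix (Fin n) (Fin n) ℝ) + (y2 : Matrix (Fin n) (Fin n) ℝ))
    * Om)) = 0 := congrArg Prod.snd hy
  rw [map_neg, neg_eq_zero, Submodule.coe_zero, zero_add] at hy2
  have hOs : Omᵀ = Om := symm_of_posDef hO
  have hs : (Om * (y2 : Matrix (Fin n) (Fin n) ℝ) * Om)ᵀ
      = Om * (y2 : Matrix (Fin n) (Fin n) ℝ) * Om := by
    rw [transpose_mul, transpose_mul, hOs, y2.2.1, Matrix.mul_assoc]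
  rw [pj_zero_iff hs] at hy2
  have := zero_of_entries hO y2.2.1 (fun i j => by
    by_cases h : F.Adj i j
    · right; exact hy2 i j h
    · left; exact y2.2.2 i j h)
  have hy2' : y2 = 0 := Subtype.ext this
  rw [hy2']
  rfl

/-- the derivative as an equivalence. -/
def PhiE {Om : Matrix (Fin n) (Fin n) ℝ} (hO : Om.PosDef) : (Sp C × Sp F) ≃L[ℝ] (Sp C × Sp F) :=
  (LinearEquiv.ofInjectiveEndo (Phi' C F Om).toLinearMap
    (Phi'_injective C F hO)).toContinuousLinearEquiv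

theorem coe_PhiE {Om : Matrix (Fin n) (Fin n) ℝ} (hO : Om.PosDef) :
    ((PhiE C F hO : (Sp C × Sp F) ≃L[ℝ] (Sp C × Sp F)) : (Sp C × Sp F) →L[ℝ] (Sp C × Sp F))
      = Phi' C F Om := by
  ext x <;> rfl

/-- the parameter domain. -/
def U : Set (Sp C) := {s | ∃ x : Sp F, (mt C F (s, x)).PosDef}

theorem exists_sol {s : Sp C} (hs : s ∈ U C F) : ∃ x : Sp F, (mt C F (s, x)).PosDef ∧
    ∀ i j, F.Adj i j → (mt C F (s, x))⁻¹ i j = 0 := by
  obtain ⟨x0, hx0⟩ := hs
  obtain ⟨S, hS, h1, h2⟩ := exists_completion F hx0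
  have hx : S - 1 - (s : Matrix (Fin n) (Fin n) ℝ) ∈ Sp F := by
    refine ⟨?_, fun i j h => ?_⟩
    · rw [transpose_sub, transpose_sub, transpose_one, s.2.1, show Sᵀ = S from symm_of_posDef hS]
    · rw [Matrix.sub_apply, Matrix.sub_apply, h1 i j h]
      show (1 + ((s : Matrix (Fin n) (Fin n) ℝ) + (x0 : Matrix (Fin n) (Fin n) ℝ))) i j
        - (1 : Matrix (Fin n) (Fin n) ℝ) i j - (s : Matrix (Fin n) (Fin n) ℝ) i j = 0
      rw [Matrix.add_apply, Matrix.add_apply, x0.2.2 i j h]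
      ring
  have he : mt C F (s, ⟨_, hx⟩) = S := by
    show 1 + ((s : Matrix (Fin n) (Fin n) ℝ) + (S - 1 - (s : Matrix (Fin n) (Fin n) ℝ))) = S
    abel
  exact ⟨⟨_, hx⟩, by rw [he]; exact hS, by rw [he]; exact h2⟩

theorem sol_unique {s : Sp C} {x y : Sp F} (hx : (mt C F (s, x)).PosDef)
    (hy : (mt C F (s, y)).PosDef) (hx' : ∀ i j, F.Adj i j → (mt C F (s, x))⁻¹ i j = 0)
    (hy' : ∀ i j, F.Adj i j → (mt C F (s, y))⁻¹ i j = 0) : mt C F (s, x) = mt C F (s, y) := by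
  apply eq_of_entries hx hy
  intro i j
  by_cases h : F.Adj i j
  · right; rw [hx' i j h, hy' i j h]
  · left
    show (1 + ((s : Matrix (Fin n) (Fin n) ℝ) + (x : Matrix (Fin n) (Fin n) ℝ))) i j
      = (1 + ((s : Matrix (Fin n) (Fin n) ℝ) + (y : Matrix (Fin n) (Fin n) ℝ))) i j
    rw [Matrix.add_apply, Matrix.add_apply, Matrix.add_apply, Matrix.add_apply, x.2.2 i j h,
      y.2.2 i j h]

open Classical in
/-- the completed matrix. -/
def sg (s : Sp C) : Matrix (Fin n) (Fin n) ℝ :=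
  if h : s ∈ U C F then mt C F (s, (exists_sol C F h).choose) else 0

theorem sg_spec {s : Sp C} (hs : s ∈ U C F) : ∃ x : Sp F, sg C F s = mt C F (s, x) ∧
    (sg C F s).PosDef ∧ ∀ i j, F.Adj i j → (sg C F s)⁻¹ i j = 0 := by
  have h : sg C F s = mt C F (s, (exists_sol C F hs).choose) := dif_pos hs
  refine ⟨_, h, ?_, ?_⟩
  · rw [h]; exact (exists_sol C F hs).choose_spec.1
  · rw [h]; exact (exists_sol C F hs).choose_spec.2

theorem sg_eq {s : Sp C} {x : Sp F} (hx : (mt C F (s, x)).PosDef)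
    (hx' : ∀ i j, F.Adj i j → (mt C F (s, x))⁻¹ i j = 0) : sg C F s = mt C F (s, x) := by
  have hs : s ∈ U C F := ⟨x, hx⟩
  obtain ⟨y, hy, hy1, hy2⟩ := sg_spec C F hs
  rw [hy] at hy1 hy2
  rw [hy]
  exact sol_unique C F hy1 hx hy2 hx'

theorem convex_U : Convex ℝ (U C F) := by
  rw [convex_iff_forall_pos]
  rintro s1 ⟨x1, h1⟩ s2 ⟨x2, h2⟩ a b ha hb hab
  refine ⟨a • x1 + b • x2, ?_⟩
  have : mt C F (a • s1 + b • s2, a • x1 + b • x2) = a • mt C F (s1, x1) + b • mt C F (s2, x2) := by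
    unfold mt
    simp only [Submodule.coe_add, Submodule.coe_smul]
    rw [smul_add, smul_add, smul_add, smul_add]
    have : (1 : Matrix (Fin n) (Fin n) ℝ) = a • 1 + b • 1 := by rw [← add_smul, hab, one_smul]
    nth_rw 1 [this]
    abel
  rw [this]
  exact (h1.smul ha).add (h2.smul hb)

end

end Pool.Agent.H51.DM
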