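import Pool.Agent.H51.DM.C

set_option linter.all false

namespace Pool.Agent.H51.DM

open Matrix

noncomputable section

variable {n : ℕ}

attribute [local instance] Matrix.linftyOpNormedRing Matrix.linftyOpNormedAlgebra

variable (C F : SimpleGraph (Fin n))

theorem local_sol {s : Sp C} (hs : s ∈ U C F) : ∃ G : Sp C → Sp C × Sp F, ContDiffAt ℝ ⊤ G s ∧
    ∀ᶠ t in nhds s, sg C F t = mt C F (G t) ∧ t ∈ U C F := by
  obtain ⟨x, hx, hpd, hz⟩ := sg_spec C F hs
  rw [hx] at hpd hz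
  set p0 : Sp C × Sp F := (s, x) with hp0
  have hC := contDiffAt_Phi C F hpd
  have hf' : HasFDerivAt (Phi C F)
      ((PhiE C F hpd.inv : (Sp C × Sp F) ≃L[ℝ] (Sp C × Sp F)) : (Sp C × Sp F) →L[ℝ] (Sp C × Sp F))
      p0 := by
    rw [coe_PhiE]; exact hasFDerivAt_Phi C F hpd
  have hn : (⊤ : WithTop ℕ∞) ≠ 0 := by simp
  have hval : Phi C F p0 = (s, 0) := by
    have h1 : pj F (Ring.inverse (mt C F p0)) = 0 := by
      rw [← Matrix.nonsing_inv_eq_ringInverse, pj_zero_iff (symm_of_posDef hpd.inv)]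
      exact hz
    show (s, pj F (Ring.inverse (mt C F p0))) = (s, 0)
    rw [h1]
  have hloc := hC.to_localInverse hf' hn
  rw [hval] at hloc
  have hinj : ContDiff ℝ ⊤ (fun t : Sp C => ((t, 0) : Sp C × Sp F)) :=
    contDiff_id.prodMk contDiff_const
  have hG : ContDiffAt ℝ ⊤ (fun t : Sp C => hC.localInverse hf' hn (t, 0)) s :=
    ContDiffAt.comp s hloc hinj.contDiffAt
  refine ⟨fun t => hC.localInverse hf' hn (t, 0), hG, ?_⟩
  have hGs : hC.localInverse hf' hn (s, 0) = p0 := by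
    rw [← hval]; exact hC.localInverse_apply_image hf' hn
  have hr : ∀ᶠ y in nhds (Phi C F p0), Phi C F (hC.localInverse hf' hn y) = y :=
    (hC.hasStrictFDerivAt' hf' hn).eventually_right_inverse
  rw [hval] at hr
  have hr' : ∀ᶠ t in nhds s, Phi C F (hC.localInverse hf' hn (t, 0)) = (t, 0) :=
    (hinj.continuous.tendsto s).eventually hr
  have hpd' : ∀ᶠ t in nhds s, (mt C F (hC.localInverse hf' hn (t, 0))).PosDef := by
    have h1 : ContinuousAt (fun t : Sp C => mt C F (hC.localInverse hf' hn (t, 0))) s :=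
      ((contDiff_mt C F).continuous.continuousAt).comp hG.continuousAt
    have h2 := h1.tendsto
    rw [hGs] at h2
    filter_upwards [h2.eventually (posDef_nhds hpd)] with t ht
    exact ht (mt_symm C F _)
  filter_upwards [hr', hpd'] with t ht1 ht2
  have e1 : (hC.localInverse hf' hn (t, 0)).1 = t := congrArg Prod.fst ht1
  have e2 : pj F (Ring.inverse (mt C F (hC.localInverse hf' hn (t, 0)))) = 0 :=
    congrArg Prod.snd ht1
  rw [← Matrix.nonsing_inv_eq_ringInverse, pj_zero_iff (symm_of_posDef ht2.inv)] at e2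
  have e3 : hC.localInverse hf' hn (t, 0) = (t, (hC.localInverse hf' hn (t, 0)).2) :=
    Prod.ext e1 rfl
  rw [e3] at ht2 e2
  exact ⟨by rw [sg_eq C F ht2 e2, ← e3], ⟨_, ht2⟩⟩

theorem sg_contDiffAt {s : Sp C} (hs : s ∈ U C F) : ContDiffAt ℝ ⊤ (sg C F) s := by
  obtain ⟨G, hG, h⟩ := local_sol C F hs
  have h1 : ContDiffAt ℝ ⊤ (fun t => mt C F (G t)) s :=
    ContDiffAt.comp (g := mt C F) s (contDiff_mt C F).contDiffAt hG
  exact h1.congr_of_eventuallyEq (h.mono fun t ht => ht.1)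

theorem isOpen_U : IsOpen (U C F) := by
  rw [isOpen_iff_mem_nhds]
  intro s hs
  obtain ⟨G, hG, h⟩ := local_sol C F hs
  exact h.mono fun t ht => ht.2

theorem sg_inv_contDiffAt {s : Sp C} (hs : s ∈ U C F) :
    ContDiffAt ℝ ⊤ (fun t => Ring.inverse (sg C F t)) s := by
  haveI : CompleteSpace (Matrix (Fin n) (Fin n) ℝ) := FiniteDimensional.complete ℝ _
  obtain ⟨x, hx, hpd, hz⟩ := sg_spec C F hs
  obtain ⟨u, hu, -⟩ := posDef_unit hpd
  have h1 : ContDiffAt ℝ ⊤ (Ring.inverse : Matrix (Fin n) (Fin n) ℝ → _) (sg C F s) := by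
    rw [← hu]; exact contDiffAt_ringInverse ℝ u
  exact ContDiffAt.comp s h1 (sg_contDiffAt C F hs)

/-- evaluation of an entry. -/
def entry (i j : Fin n) : Matrix (Fin n) (Fin n) ℝ →ₗ[ℝ] ℝ where
  toFun T := T i j
  map_add' _ _ := rfl
  map_smul' _ _ := rfl

theorem entry_contDiffAt {E : Type*} [NormedAddCommGroup E] [NormedSpace ℝ E]
    {f : E → Matrix (Fin n) (Fin n) ℝ} {s : E} (hf : ContDiffAt ℝ ⊤ f s) (i j : Fin n) :
    ContDiffAt ℝ ⊤ (fun t => f t i j) s :=
  ((LinearMap.toContinuousLinearMap (entry i j)).contDiff (n := ⊤)).contDiffAt.comp s hf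

/-- analytic functions on the parameter domain which vanish near a point vanish. -/
theorem identity {h : Sp C → ℝ} (hh : ∀ s ∈ U C F, ContDiffAt ℝ ⊤ h s) {s0 : Sp C}
    (hs0 : s0 ∈ U C F) (h0 : ∀ᶠ s in nhds s0, h s = 0) : ∀ s ∈ U C F, h s = 0 := by
  have ha : AnalyticOnNhd ℝ h (U C F) := fun s hs => (hh s hs).analyticAt
  exact ha.eqOn_zero_of_preconnected_of_eventuallyEq_zero (convex_U C F).isPreconnected hs0 h0

end

/-! ## the correlation models -/

noncomputable section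

variable {n : ℕ}

/-- the correlation model `M₁(G,H)`. -/
def corrModel (G H : SimpleGraph (Fin n)) : Set (Matrix (Fin n) (Fin n) ℝ) :=
  {S | S.PosDef ∧ (∀ i j, i ≠ j → ¬ G.Adj i j → S⁻¹ i j = 0) ∧
    (∀ i j, i ≠ j → ¬ H.Adj i j → S i j = 0) ∧ ∀ i, S i i = 1}

variable (G H : SimpleGraph (Fin n))

theorem corr_param {S : Matrix (Fin n) (Fin n) ℝ} (hS : S ∈ corrModel G H) :
    pj (G ⊓ H) S ∈ U (G ⊓ H) (H \ G) ∧ sg (G ⊓ H) (H \ G) (pj (G ⊓ H) S) = S := by
  obtain ⟨h1, h2, h3, h4⟩ := hS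
  have hs : Sᵀ = S := symm_of_posDef h1
  have he : mt (G ⊓ H) (H \ G) (pj (G ⊓ H) S, pj (H \ G) S) = S := by
    ext i j
    show (1 + ((pj (G ⊓ H) S : Matrix (Fin n) (Fin n) ℝ)
      + (pj (H \ G) S : Matrix (Fin n) (Fin n) ℝ))) i j = S i j
    rw [Matrix.add_apply, Matrix.add_apply]
    by_cases hij : i = j
    · subst hij
      rw [pj_apply_not (SimpleGraph.irrefl _), pj_apply_not (SimpleGraph.irrefl _), one_apply_eq,
        h4]
      ring
    · rw [one_apply_ne hij]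
      by_cases hH : H.Adj i j
      · by_cases hG : G.Adj i j
        · rw [pj_apply_adj hs (show (G ⊓ H).Adj i j from ⟨hG, hH⟩),
            pj_apply_not (show ¬ (H \ G).Adj i j from fun h => h.2 hG)]
          ring
        · rw [pj_apply_not (show ¬ (G ⊓ H).Adj i j from fun h => hG h.1),
            pj_apply_adj hs (show (H \ G).Adj i j from ⟨hH, hG⟩)]
          ring
      · rw [pj_apply_not (show ¬ (G ⊓ H).Adj i j from fun h => hH h.2),
          pj_apply_not (show ¬ (H \ G).Adj i j from fun h => hH h.1), h3 i j hij hH]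
        ring
  refine ⟨⟨pj (H \ G) S, by rw [he]; exact h1⟩, ?_⟩
  rw [sg_eq (x := pj (H \ G) S) _ _ (by rw [he]; exact h1) (fun i j hij => by
    rw [he]; exact h2 i j hij.ne hij.2), he]

theorem sg_mem_iff {s : Sp (G ⊓ H)} (hs : s ∈ U (G ⊓ H) (H \ G)) :
    sg (G ⊓ H) (H \ G) s ∈ corrModel G H ↔ ∀ i j, i ≠ j → ¬ G.Adj i j → ¬ H.Adj i j →
      Ring.inverse (sg (G ⊓ H) (H \ G) s) i j = 0 := by
  obtain ⟨x, hx, hpd, hz⟩ := sg_spec _ _ hs
  constructor
  · intro h i j hij hG hH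
    rw [← Matrix.nonsing_inv_eq_ringInverse]
    exact h.2.1 i j hij hG
  · intro h
    refine ⟨hpd, ?_, ?_, ?_⟩
    · intro i j hij hG
      by_cases hH : H.Adj i j
      · exact hz i j ⟨hH, hG⟩
      · rw [Matrix.nonsing_inv_eq_ringInverse]
        exact h i j hij hG hH
    · intro i j hij hH
      rw [hx]
      show (1 + ((s : Matrix (Fin n) (Fin n) ℝ) + (x : Matrix (Fin n) (Fin n) ℝ))) i j = 0
      rw [Matrix.add_apply, Matrix.add_apply, one_apply_ne hij, s.2.2 i j (fun h => hH h.2),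
        x.2.2 i j (fun h => hH h.1)]
      ring
    · intro i
      rw [hx]
      show (1 + ((s : Matrix (Fin n) (Fin n) ℝ) + (x : Matrix (Fin n) (Fin n) ℝ))) i i = 1
      rw [Matrix.add_apply, Matrix.add_apply, one_apply_eq, s.2.2 i i (SimpleGraph.irrefl _),
        x.2.2 i i (SimpleGraph.irrefl _)]
      ring

attribute [local instance] Matrix.linftyOpNormedRing Matrix.linftyOpNormedAlgebra

/-- if the model contains a piece of full dimension then it is everything. -/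
theorem all_of_near {s0 : Sp (G ⊓ H)} (hs0 : s0 ∈ U (G ⊓ H) (H \ G))
    (h : ∀ᶠ s in nhds s0, sg (G ⊓ H) (H \ G) s ∈ corrModel G H) :
    ∀ s ∈ U (G ⊓ H) (H \ G), sg (G ⊓ H) (H \ G) s ∈ corrModel G H := by
  intro s hs
  rw [sg_mem_iff G H hs]
  intro i j hij hG hH
  refine identity (G ⊓ H) (H \ G) (h := fun t => Ring.inverse (sg (G ⊓ H) (H \ G) t) i j)
    (fun t ht => entry_contDiffAt (sg_inv_contDiffAt _ _ ht) i j) hs0 ?_ s hs
  have hU := (isOpen_U (G ⊓ H) (H \ G)).mem_nhds hs0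
  filter_upwards [h, hU] with t ht htU
  exact (sg_mem_iff G H htU).mp ht i j hij hG hH

end

end Pool.Agent.H51.DM
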