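import Pool.Agent.H51.DM.D

set_option linter.all false

namespace Pool.Agent.H51.DM

open Matrix

noncomputable section

variable {n : ℕ}

theorem Es_mul_self {i j : Fin n} (hij : i ≠ j) :
    Es i j * Es i j = single i i (1 : ℝ) + single j j 1 := by
  unfold Es
  rw [add_mul, mul_add, mul_add, single_mul_single_of_ne _ _ _ _ hij.symm, single_mul_single_same,
    single_mul_single_same, single_mul_single_of_ne _ _ _ _ hij, mul_one]
  abel

theorem Es_mul_diag {i j : Fin n} (hij : i ≠ j) :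
    Es i j * (single i i (1 : ℝ) + single j j 1) = Es i j := by
  unfold Es
  rw [add_mul, mul_add, mul_add, single_mul_single_of_ne _ _ _ _ hij.symm, single_mul_single_same,
    single_mul_single_same, single_mul_single_of_ne _ _ _ _ hij, mul_one]
  abel

theorem inv_var {i j : Fin n} (hij : i ≠ j) {t : ℝ} (ht : t ^ 2 ≠ 1) :
    (1 + t • Es i j)⁻¹ = 1 + (t ^ 2 / (1 - t ^ 2)) • (single i i (1 : ℝ) + single j j 1)
      + (-t / (1 - t ^ 2)) • Es i j := by
  apply Matrix.inv_eq_right_inv
  have h0 : 1 - t ^ 2 ≠ 0 := fun h => ht (by linarith)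
  rw [mul_add, mul_add, mul_one, add_mul, add_mul, one_mul, one_mul]
  simp only [Matrix.mul_smul, Matrix.smul_mul, Es_mul_self hij, Es_mul_diag hij, smul_smul]
  have e1 : t ^ 2 / (1 - t ^ 2) + -t / (1 - t ^ 2) * t = 0 := by field_simp; ring
  have e2 : t + t ^ 2 / (1 - t ^ 2) * t + -t / (1 - t ^ 2) = 0 := by field_simp; ring
  generalize single i i (1 : ℝ) + single j j 1 = D
  generalize Es i j = E'
  calc 1 + t • E' + ((t ^ 2 / (1 - t ^ 2)) • D + (t ^ 2 / (1 - t ^ 2) * t) • E')
        + ((-t / (1 - t ^ 2)) • E' + (-t / (1 - t ^ 2) * t) • D)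
      = 1 + (t ^ 2 / (1 - t ^ 2) + -t / (1 - t ^ 2) * t) • D
        + (t + t ^ 2 / (1 - t ^ 2) * t + -t / (1 - t ^ 2)) • E' := by
          simp only [add_smul]; abel
    _ = 1 := by rw [e1, e2, zero_smul, zero_smul, add_zero, add_zero]

theorem edge_curve {G H : SimpleGraph (Fin n)} {i j : Fin n} (hij : (G ⊓ H).Adj i j) :
    ∀ᶠ t in nhds (0 : ℝ), 1 + t • Es i j ∈ corrModel G H := by
  have hne : i ≠ j := hij.ne
  have hc : Continuous (fun t : ℝ => (1 : Matrix (Fin n) (Fin n) ℝ) + t • Es i j) := by fun_prop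
  have h1 : Filter.Tendsto (fun t : ℝ => (1 : Matrix (Fin n) (Fin n) ℝ) + t • Es i j) (nhds 0)
      (nhds 1) := by
    have := hc.tendsto 0
    simpa using this
  have h2 : ∀ᶠ t in nhds (0 : ℝ), t ^ 2 ≠ 1 := by
    have : ContinuousAt (fun t : ℝ => t ^ 2) 0 := by fun_prop
    exact this.eventually_ne (by norm_num)
  filter_upwards [h1.eventually (posDef_nhds PosDef.one), h2] with t ht ht2
  have hEs : ∀ a b, a ≠ b → ¬ (G ⊓ H).Adj a b → Es i j a b = 0 := by
    intro a b hab h
    rw [Es_apply, if_neg, if_neg, add_zero]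
    · rintro ⟨rfl, rfl⟩; exact h hij.symm
    · rintro ⟨rfl, rfl⟩; exact h hij
  refine ⟨ht ?_, ?_, ?_, ?_⟩
  · show (1 + t • Es i j)ᵀ = _
    rw [transpose_add, transpose_one, transpose_smul, show (Es i j)ᵀ = Es i j from Es_symm i j]
  · intro a b hab hG
    rw [inv_var hne ht2]
    simp only [Matrix.add_apply, Matrix.smul_apply, one_apply_ne hab, smul_eq_mul]
    rw [hEs a b hab (fun h => hG h.1)]
    rw [single_apply, single_apply, if_neg, if_neg]
    · ring
    · rintro ⟨rfl, h⟩; exact hab h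
    · rintro ⟨rfl, h⟩; exact hab h
  · intro a b hab hH
    rw [Matrix.add_apply, Matrix.smul_apply, one_apply_ne hab, hEs a b hab (fun h => hH h.2)]
    simp
  · intro a
    rw [Matrix.add_apply, Matrix.smul_apply, one_apply_eq, Es_apply, if_neg, if_neg]
    · simp
    · rintro ⟨rfl, h⟩; exact hne h
    · rintro ⟨rfl, h⟩; exact hne h.symm

theorem one_mem (G H : SimpleGraph (Fin n)) : (1 : Matrix (Fin n) (Fin n) ℝ) ∈ corrModel G H := by
  refine ⟨PosDef.one, ?_, ?_, ?_⟩
  · intro i j hij _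
    rw [inv_one, Matrix.one_apply_ne hij]
  · intro i j hij _
    rw [Matrix.one_apply_ne hij]
  · intro i
    exact Matrix.one_apply_eq i

theorem pj_one (K : SimpleGraph (Fin n)) : pj K 1 = 0 := by
  rw [pj_zero_iff transpose_one]
  intro i j h
  exact one_apply_ne h.ne

/-- the basis elements of `Sp K`. -/
def EK (K : SimpleGraph (Fin n)) {i j : Fin n} (h : K.Adj i j) : Sp K :=
  ⟨Es i j, Es_symm i j, fun a b hab => by
    rw [Es_apply, if_neg, if_neg, add_zero]
    · rintro ⟨rfl, rfl⟩; exact hab h.symm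
    · rintro ⟨rfl, rfl⟩; exact hab h⟩

theorem span_EK (K : SimpleGraph (Fin n)) (R : Submodule ℝ (Sp K))
    (hR : ∀ i j (h : K.Adj i j), EK K h ∈ R) : R = ⊤ := by
  classical
  rw [eq_top_iff]
  intro s _
  have hs : s = ∑ i, ∑ j, if h : K.Adj i j then ((s : Matrix (Fin n) (Fin n) ℝ) i j / 2) • EK K h
      else 0 := by
    apply Subtype.ext
    rw [Submodule.coe_sum]
    ext a b
    rw [Matrix.sum_apply]
    have e1 : ∀ i, (((∑ j, if h : K.Adj i j then ((s : Matrix (Fin n) (Fin n) ℝ) i j / 2) • EK K h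
        else 0 : Sp K) : Matrix (Fin n) (Fin n) ℝ)) a b
        = ∑ j, (s : Matrix (Fin n) (Fin n) ℝ) i j / 2 * Es i j a b := by
      intro i
      rw [Submodule.coe_sum, Matrix.sum_apply]
      refine Finset.sum_congr rfl fun j _ => ?_
      by_cases h : K.Adj i j
      · rw [dif_pos h]; rfl
      · rw [dif_neg h, s.2.2 i j h]; simp
    rw [Finset.sum_congr rfl fun i _ => e1 i]
    simp only [Es_apply, mul_add, Finset.sum_add_distrib]
    have e2 : ∑ i, ∑ j, (s : Matrix (Fin n) (Fin n) ℝ) i j / 2 * (if i = a ∧ j = b then 1 else 0)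
        = (s : Matrix (Fin n) (Fin n) ℝ) a b / 2 := by
      rw [Finset.sum_eq_single a, Finset.sum_eq_single b]
      · simp
      · intro j _ hj; simp [hj]
      · simp
      · intro i _ hi
        exact Finset.sum_eq_zero fun j _ => by simp [hi]
      · simp
    have e3 : ∑ i, ∑ j, (s : Matrix (Fin n) (Fin n) ℝ) i j / 2 * (if j = a ∧ i = b then 1 else 0)
        = (s : Matrix (Fin n) (Fin n) ℝ) b a / 2 := by
      rw [Finset.sum_eq_single b, Finset.sum_eq_single a]
      · simp
      · intro j _ hj; simp [hj]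
      · simp
      · intro i _ hi
        exact Finset.sum_eq_zero fun j _ => by simp [hi]
      · simp
    rw [e2, e3]
    have : (s : Matrix (Fin n) (Fin n) ℝ) b a = (s : Matrix (Fin n) (Fin n) ℝ) a b := by
      have := congrFun (congrFun s.2.1 a) b
      simpa using this
    rw [this]; ring
  rw [hs]
  refine R.sum_mem fun i _ => R.sum_mem fun j _ => ?_
  by_cases h : K.Adj i j
  · rw [dif_pos h]; exact R.smul_mem _ (hR i j h)
  · rw [dif_neg h]; exact R.zero_mem

end

end Pool.Agent.H51.DM
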