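import Pool.Agent.H51.DM.E

set_option linter.all false

namespace Pool.Agent.H51.DM

open Matrix Filter

noncomputable section

variable {n : ℕ}

attribute [local instance] Matrix.linftyOpNormedRing Matrix.linftyOpNormedAlgebra

/-- `S` has a `C^r` chart with `d` coordinates around `p`. -/
def HasChart {E : Type*} [NormedAddCommGroup E] [NormedSpace ℝ E] (r : WithTop ℕ∞) (d : ℕ)
    (S : Set E) (p : E) : Prop :=
  ∃ (W : Set E) (B : Set (Fin d → ℝ)) (f : (Fin d → ℝ) → E) (ρ : E → (Fin d → ℝ)),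
    IsOpen W ∧ p ∈ W ∧ IsOpen B ∧ ContDiffOn ℝ r f B ∧ ContDiffOn ℝ r ρ W ∧ f '' B = S ∩ W ∧
      ∀ b ∈ B, ρ (f b) = b

variable (G H : SimpleGraph (Fin n))

theorem zero_mem_U : (0 : Sp (G ⊓ H)) ∈ U (G ⊓ H) (H \ G) := by
  have := (corr_param G H (one_mem G H)).1
  rwa [pj_one] at this

/-- a submersion onto the parameter space with values in the model. -/
theorem near_of_surj {d : ℕ} {B : Set (Fin d → ℝ)} (hB : IsOpen B)
    {f : (Fin d → ℝ) → Matrix (Fin n) (Fin n) ℝ} {b0 : Fin d → ℝ} (hb0 : b0 ∈ B)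
    {f' : (Fin d → ℝ) →L[ℝ] Matrix (Fin n) (Fin n) ℝ} (hf : HasStrictFDerivAt f f' b0)
    (hmem : ∀ b ∈ B, f b ∈ corrModel G H)
    (hsurj : LinearMap.range ((pj (G ⊓ H)).comp (f' : (Fin d → ℝ) →ₗ[ℝ] Matrix (Fin n) (Fin n) ℝ))
      = ⊤) :
    ∀ s ∈ U (G ⊓ H) (H \ G), sg (G ⊓ H) (H \ G) s ∈ corrModel G H := by
  have hq : HasStrictFDerivAt (fun b => pj (G ⊓ H) (f b))
      ((LinearMap.toContinuousLinearMap (pj (G ⊓ H))).comp f') b0 :=
    ((LinearMap.toContinuousLinearMap (pj (G ⊓ H))).hasStrictFDerivAt).comp b0 hf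
  have hm := hq.map_nhds_eq_of_surj hsurj
  refine all_of_near G H (s0 := pj (G ⊓ H) (f b0)) (corr_param G H (hmem b0 hb0)).1 ?_
  have key : ∀ᶠ s in Filter.map (fun b => pj (G ⊓ H) (f b)) (nhds b0),
      sg (G ⊓ H) (H \ G) s ∈ corrModel G H := by
    rw [eventually_map]
    filter_upwards [hB.mem_nhds hb0] with b hb
    rw [(corr_param G H (hmem b hb)).2]
    exact hmem b hb
  rw [hm] at key
  exact key

theorem all_of_chart {r : WithTop ℕ∞} (hr : 1 ≤ r) {d : ℕ} (h : HasChart r d (corrModel G H) 1) :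
    ∀ s ∈ U (G ⊓ H) (H \ G), sg (G ⊓ H) (H \ G) s ∈ corrModel G H := by
  obtain ⟨W, B, f, ρ, hW, h1W, hB, hf, hρ, himg, hinv⟩ := h
  have hr0 : r ≠ 0 := fun h0 => by rw [h0] at hr; exact absurd hr (by simp)
  obtain ⟨b0, hb0, hfb0⟩ : (1 : Matrix (Fin n) (Fin n) ℝ) ∈ f '' B := by
    rw [himg]; exact ⟨one_mem G H, h1W⟩
  have hρ1 : ρ 1 = b0 := by rw [← hfb0]; exact hinv b0 hb0
  have hmem : ∀ b ∈ B, f b ∈ corrModel G H := fun b hb => by
    have : f b ∈ corrModel G H ∩ W := by rw [← himg]; exact ⟨b, hb, rfl⟩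
    exact this.1
  have hfs : ContDiffAt ℝ r f b0 := hf.contDiffAt (hB.mem_nhds hb0)
  have hfs' : HasStrictFDerivAt f (fderiv ℝ f b0) b0 := hfs.hasStrictFDerivAt hr0
  have hρd : DifferentiableAt ℝ ρ 1 := (hρ.contDiffAt (hW.mem_nhds h1W)).differentiableAt hr0
  refine near_of_surj G H hB hb0 hfs' hmem ?_
  refine span_EK _ _ fun i j hij => ?_
  -- the curve
  have hγ : HasDerivAt (fun t : ℝ => (1 : Matrix (Fin n) (Fin n) ℝ) + t • Es i j) (Es i j) 0 := by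
    have h := (hasDerivAt_id (0 : ℝ)).smul_const (Es i j)
    rw [one_smul] at h
    exact h.const_add _
  have hγ0 : (1 : Matrix (Fin n) (Fin n) ℝ) + (0 : ℝ) • Es i j = 1 := by rw [zero_smul, add_zero]
  have hρ' : HasFDerivAt ρ (fderiv ℝ ρ 1) ((1 : Matrix (Fin n) (Fin n) ℝ) + (0 : ℝ) • Es i j) := by
    rw [hγ0]; exact hρd.hasFDerivAt
  have h1 : HasDerivAt (fun t : ℝ => ρ (1 + t • Es i j)) (fderiv ℝ ρ 1 (Es i j)) 0 :=
    hρ'.comp_hasDerivAt (0 : ℝ) hγ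
  have hf' : HasFDerivAt f (fderiv ℝ f b0)
      (ρ ((1 : Matrix (Fin n) (Fin n) ℝ) + (0 : ℝ) • Es i j)) := by
    rw [hγ0, hρ1]; exact hfs'.hasFDerivAt
  have h2 : HasDerivAt (fun t : ℝ => f (ρ (1 + t • Es i j)))
      (fderiv ℝ f b0 (fderiv ℝ ρ 1 (Es i j))) 0 := hf'.comp_hasDerivAt (0 : ℝ) h1
  have hW' : ∀ᶠ t in nhds (0 : ℝ), (1 : Matrix (Fin n) (Fin n) ℝ) + t • Es i j ∈ W := by
    have hc : ContinuousAt (fun t : ℝ => (1 : Matrix (Fin n) (Fin n) ℝ) + t • Es i j) 0 :=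
      hγ.continuousAt
    exact hc.eventually_mem (hW.mem_nhds (by rw [hγ0]; exact h1W))
  have h3 : (fun t : ℝ => f (ρ (1 + t • Es i j))) =ᶠ[nhds 0]
      (fun t : ℝ => (1 : Matrix (Fin n) (Fin n) ℝ) + t • Es i j) := by
    filter_upwards [edge_curve hij, hW'] with t ht1 ht2
    have : (1 : Matrix (Fin n) (Fin n) ℝ) + t • Es i j ∈ f '' B := by rw [himg]; exact ⟨ht1, ht2⟩
    obtain ⟨b, hb, hfb⟩ := this
    rw [← hfb, hinv b hb]
  have h4 : fderiv ℝ f b0 (fderiv ℝ ρ 1 (Es i j)) = Es i j :=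
    (h2.congr_of_eventuallyEq h3.symm).unique hγ
  refine ⟨fderiv ℝ ρ 1 (Es i j), ?_⟩
  show pj (G ⊓ H) (fderiv ℝ f b0 (fderiv ℝ ρ 1 (Es i j))) = EK (G ⊓ H) hij
  rw [h4]
  exact pj_self (EK (G ⊓ H) hij)

end

end Pool.Agent.H51.DM
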