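import Pool.Agent.H51.DM.F

set_option linter.all false

namespace Pool.Agent.H51.DM

open Matrix Filter

noncomputable section

variable {n : ℕ}

/-- the index set of the coordinates `σ_ij`, `i ≤ j`, of the space of symmetric matrices. -/
abbrev Idx (n : ℕ) : Type := {p : Fin n × Fin n // p.1 ≤ p.2}

/-- the coordinates. -/
def coords (K : Type*) [NormedField K] [NormedAlgebra ℝ K] (S : Matrix (Fin n) (Fin n) ℝ) :
    Idx n → K := fun p => algebraMap ℝ K (S p.1.1 p.1.2)

variable (G H : SimpleGraph (Fin n))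

attribute [local instance] Matrix.linftyOpNormedRing Matrix.linftyOpNormedAlgebra

theorem coords_analytic (K : Type*) [NormedField K] [NormedAlgebra ℝ K]
    (q : MvPolynomial (Idx n) K) :
    AnalyticOnNhd ℝ (fun s => MvPolynomial.aeval (coords K (sg (G ⊓ H) (H \ G) s)) q)
      (U (G ⊓ H) (H \ G)) := by
  intro s hs
  apply AnalyticAt.aeval_mvPolynomial
  intro p
  have h1 : AnalyticAt ℝ (fun t => sg (G ⊓ H) (H \ G) t p.1.1 p.1.2) s :=
    (entry_contDiffAt (sg_contDiffAt _ _ hs) p.1.1 p.1.2).analyticAt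
  exact ((algebraMapCLM ℝ K).analyticAt _).comp h1

theorem prime_of_all (K : Type*) [NormedField K] [NormedAlgebra ℝ K]
    (h : ∀ s ∈ U (G ⊓ H) (H \ G), sg (G ⊓ H) (H \ G) s ∈ corrModel G H) :
    (MvPolynomial.vanishingIdeal K (coords K '' corrModel G H)).IsPrime := by
  have hvan : ∀ q : MvPolynomial (Idx n) K,
      q ∈ MvPolynomial.vanishingIdeal K (coords K '' corrModel G H) ↔
      ∀ s ∈ U (G ⊓ H) (H \ G), MvPolynomial.aeval (coords K (sg (G ⊓ H) (H \ G) s)) q = 0 := by
    intro q
    rw [MvPolynomial.mem_vanishingIdeal_iff]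
    constructor
    · intro h1 s hs
      exact h1 _ ⟨_, h s hs, rfl⟩
    · rintro h1 x ⟨S, hS, rfl⟩
      obtain ⟨h2, h3⟩ := corr_param G H hS
      have := h1 _ h2
      rwa [h3] at this
  refine ⟨?_, ?_⟩
  · rw [Ideal.ne_top_iff_one, hvan]
    intro h1
    have := h1 0 (zero_mem_U G H)
    rw [map_one] at this
    exact one_ne_zero this
  · intro p q hpq
    by_contra hcon
    push Not at hcon
    obtain ⟨hp, hq⟩ := hcon
    rw [hvan] at hp hq hpq
    push Not at hp
    obtain ⟨s0, hs0, hp0⟩ := hp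
    apply hq
    have hcont : ContinuousAt (fun s => MvPolynomial.aeval (coords K (sg (G ⊓ H) (H \ G) s)) p)
        s0 := (coords_analytic G H K p s0 hs0).continuousAt
    have hev : ∀ᶠ s in nhds s0,
        MvPolynomial.aeval (coords K (sg (G ⊓ H) (H \ G) s)) p ≠ 0 := hcont.eventually_ne hp0
    have hU : ∀ᶠ s in nhds s0, s ∈ U (G ⊓ H) (H \ G) :=
      (isOpen_U (G ⊓ H) (H \ G)).mem_nhds hs0
    have hzero : ∀ᶠ s in nhds s0,
        MvPolynomial.aeval (coords K (sg (G ⊓ H) (H \ G) s)) q = 0 := by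
      filter_upwards [hev, hU] with s h1 h2
      have := hpq s h2
      rw [map_mul, mul_eq_zero] at this
      exact this.resolve_left h1
    intro s hs
    exact (coords_analytic G H K q).eqOn_zero_of_preconnected_of_eventuallyEq_zero
      (convex_U (G ⊓ H) (H \ G)).isPreconnected hs0 hzero hs

end

end Pool.Agent.H51.DM
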