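import Pool.Agent.H51.DM.G

set_option linter.all false

namespace Pool.Agent.H51.DM

open Matrix Filter

noncomputable section

variable {n : ℕ}

/-- `Sp K` is the space of functions on the edges of `K`. -/
def spEquiv (K : SimpleGraph (Fin n)) : Sp K ≃ₗ[ℝ] (K.edgeSet → ℝ) where
  toFun s e := Sym2.lift ⟨fun i j => (s : Matrix (Fin n) (Fin n) ℝ) i j, fun i j => by
    have := congrFun (congrFun s.2.1 j) i
    simpa using this⟩ e.1
  map_add' s t := by
    ext ⟨e, he⟩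
    induction e using Sym2.ind with
    | _ i j => rfl
  map_smul' c s := by
    ext ⟨e, he⟩
    induction e using Sym2.ind with
    | _ i j => rfl
  invFun g := by
    classical
    exact ⟨fun i j => if h : K.Adj i j then g ⟨s(i, j), h⟩ else 0, by
      refine ⟨?_, fun i j h => dif_neg h⟩
      ext i j
      rw [transpose_apply]
      by_cases h : K.Adj i j
      · rw [dif_pos h, dif_pos h.symm]
        congr 2
        exact Sym2.eq_swap
      · rw [dif_neg h, dif_neg (fun h' => h h'.symm)]⟩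
  left_inv s := by
    classical
    ext i j
    by_cases h : K.Adj i j
    · show (if h : K.Adj i j then _ else _) = _
      rw [dif_pos h]
      rfl
    · rw [s.2.2 i j h]
      exact dif_neg h
  right_inv g := by
    classical
    ext ⟨e, he⟩
    induction e using Sym2.ind with
    | _ i j =>
      exact dif_pos (show K.Adj i j from he)

theorem finrank_Sp (K : SimpleGraph (Fin n)) : Module.finrank ℝ (Sp K) = K.edgeSet.ncard := by
  classical
  rw [(spEquiv K).finrank_eq, Module.finrank_fintype_fun_eq_card, Set.ncard_def, Set.encard,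
    ENat.card_eq_coe_fintype_card]
  simp

end

noncomputable section

variable {n : ℕ}

attribute [local instance] Matrix.linftyOpNormedRing Matrix.linftyOpNormedAlgebra

variable (G H : SimpleGraph (Fin n))

theorem deriv_entry_zero {d : ℕ} {B : Set (Fin d → ℝ)} (hB : IsOpen B)
    {f : (Fin d → ℝ) → Matrix (Fin n) (Fin n) ℝ} {b0 : Fin d → ℝ} (hb0 : b0 ∈ B)
    {f' : (Fin d → ℝ) →L[ℝ] Matrix (Fin n) (Fin n) ℝ} (hf : HasFDerivAt f f' b0)
    {l : Matrix (Fin n) (Fin n) ℝ →ₗ[ℝ] ℝ} {c : ℝ} (hc : ∀ b ∈ B, l (f b) = c)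
    (v : Fin d → ℝ) : l (f' v) = 0 := by
  have h1 : HasFDerivAt (fun b => l (f b)) ((LinearMap.toContinuousLinearMap l).comp f') b0 :=
    (LinearMap.toContinuousLinearMap l).hasFDerivAt.comp b0 hf
  have h2 : (fun b => l (f b)) =ᶠ[nhds b0] fun _ => c := by
    filter_upwards [hB.mem_nhds hb0] with b hb using hc b hb
  have h3 : HasFDerivAt (fun b => l (f b)) (0 : (Fin d → ℝ) →L[ℝ] ℝ) b0 :=
    (hasFDerivAt_const c b0).congr_of_eventuallyEq h2
  have h4 := h1.unique h3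
  have := congrArg (fun L : (Fin d → ℝ) →L[ℝ] ℝ => L v) h4
  exact this

theorem injective_param {d : ℕ} {B : Set (Fin d → ℝ)} (hB : IsOpen B)
    {f : (Fin d → ℝ) → Matrix (Fin n) (Fin n) ℝ} {b0 : Fin d → ℝ} (hb0 : b0 ∈ B)
    {f' : (Fin d → ℝ) →L[ℝ] Matrix (Fin n) (Fin n) ℝ} (hf : HasFDerivAt f f' b0)
    (hmem : ∀ b ∈ B, f b ∈ corrModel G H) (v : Fin d → ℝ) (hv : pj (G ⊓ H) (f' v) = 0) :
    f' v = 0 := by
  haveI : CompleteSpace (Matrix (Fin n) (Fin n) ℝ) := FiniteDimensional.complete ℝ _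
  have hpd : (f b0).PosDef := (hmem b0 hb0).1
  have hsym : (f' v)ᵀ = f' v := by
    ext i j
    rw [transpose_apply]
    have := deriv_entry_zero hB hb0 hf (l := entry j i - entry i j) (c := 0) (fun b hb => by
      show f b j i - f b i j = 0
      have h1 := symm_of_posDef (hmem b hb).1
      have := congrFun (congrFun h1 i) j
      rw [transpose_apply] at this
      rw [this, sub_self]) v
    have h2 : f' v j i - f' v i j = 0 := this
    linarith
  rw [pj_zero_iff hsym] at hv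
  -- the inverse
  obtain ⟨u, hu, hu'⟩ := posDef_unit hpd
  have hinv : HasFDerivAt (fun b => Ring.inverse (f b))
      ((-ContinuousLinearMap.mulLeftRight ℝ _ (f b0)⁻¹ (f b0)⁻¹).comp f') b0 := by
    have := hasFDerivAt_ringInverse (𝕜 := ℝ) u
    rw [hu, hu'] at this
    exact this.comp b0 hf
  apply zero_of_entries hpd.inv hsym
  intro i j
  by_cases hij : i = j
  · subst hij
    left
    exact deriv_entry_zero hB hb0 hf (l := entry i i) (c := 1)
      (fun b hb => (hmem b hb).2.2.2 i) v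
  by_cases hH : H.Adj i j
  · by_cases hG : G.Adj i j
    · left; exact hv i j ⟨hG, hH⟩
    · right
      have h1 := deriv_entry_zero hB hb0 hinv (l := entry i j) (c := 0) (fun b hb => by
        show Ring.inverse (f b) i j = 0
        rw [← Matrix.nonsing_inv_eq_ringInverse]
        exact (hmem b hb).2.1 i j hij hG) v
      have h2 : (-((f b0)⁻¹ * f' v * (f b0)⁻¹)) i j = 0 := h1
      rw [Matrix.neg_apply, neg_eq_zero] at h2
      exact h2
  · left
    exact deriv_entry_zero hB hb0 hf (l := entry i j) (c := 0)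
      (fun b hb => (hmem b hb).2.2.1 i j hij hH) v

theorem all_of_dim {d : ℕ} (hd : d = (G ⊓ H).edgeSet.ncard) {B : Set (Fin d → ℝ)} (hB : IsOpen B)
    {f : (Fin d → ℝ) → Matrix (Fin n) (Fin n) ℝ} {b0 : Fin d → ℝ} (hb0 : b0 ∈ B)
    {f' : (Fin d → ℝ) →L[ℝ] Matrix (Fin n) (Fin n) ℝ} (hf : HasStrictFDerivAt f f' b0)
    (hinj : Function.Injective f') (hmem : ∀ b ∈ B, f b ∈ corrModel G H) :
    ∀ s ∈ U (G ⊓ H) (H \ G), sg (G ⊓ H) (H \ G) s ∈ corrModel G H := by
  refine near_of_surj G H hB hb0 hf hmem ?_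
  rw [LinearMap.range_eq_top]
  have hfr : Module.finrank ℝ (Fin d → ℝ) = Module.finrank ℝ (Sp (G ⊓ H)) := by
    rw [Module.finrank_fin_fun, hd, finrank_Sp]
  rw [← LinearMap.injective_iff_surjective_of_finrank_eq_finrank hfr, injective_iff_map_eq_zero]
  intro v hv
  have h1 := injective_param G H hB hb0 hf.hasFDerivAt hmem v hv
  apply hinj
  rw [h1, map_zero]

theorem pj_sg {s : Sp (G ⊓ H)} (hs : s ∈ U (G ⊓ H) (H \ G)) :
    pj (G ⊓ H) (sg (G ⊓ H) (H \ G) s) = s := by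
  obtain ⟨x, hx, -, -⟩ := sg_spec _ _ hs
  rw [hx]
  show pj (G ⊓ H) (1 + ((s : Matrix (Fin n) (Fin n) ℝ) + (x : Matrix (Fin n) (Fin n) ℝ))) = s
  have hx0 : pj (G ⊓ H) (x : Matrix (Fin n) (Fin n) ℝ) = 0 := by
    rw [pj_zero_iff x.2.1]
    intro i j hij
    exact x.2.2 i j (fun h => h.2 hij.1)
  rw [map_add, map_add, pj_one, pj_self, hx0, add_zero, zero_add]

/-- the global chart. -/
theorem global_chart (hall : ∀ s ∈ U (G ⊓ H) (H \ G), sg (G ⊓ H) (H \ G) s ∈ corrModel G H)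
    {d : ℕ} (hd : d = (G ⊓ H).edgeSet.ncard) :
    ∃ (B : Set (Fin d → ℝ)) (f : (Fin d → ℝ) → Matrix (Fin n) (Fin n) ℝ)
      (ρ : Matrix (Fin n) (Fin n) ℝ →ₗ[ℝ] (Fin d → ℝ)),
      IsOpen B ∧ Convex ℝ B ∧ ContDiffOn ℝ ⊤ f B ∧ f '' B = corrModel G H ∧
        ∀ b ∈ B, ρ (f b) = b := by
  have hfr : Module.finrank ℝ (Sp (G ⊓ H)) = Module.finrank ℝ (Fin d → ℝ) := by
    rw [Module.finrank_fin_fun, hd, finrank_Sp]
  let Φ : Sp (G ⊓ H) ≃L[ℝ] (Fin d → ℝ) := ContinuousLinearEquiv.ofFinrankEq hfr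
  refine ⟨Φ.symm ⁻¹' U (G ⊓ H) (H \ G), fun b => sg (G ⊓ H) (H \ G) (Φ.symm b),
    (Φ : Sp (G ⊓ H) →ₗ[ℝ] (Fin d → ℝ)).comp (pj (G ⊓ H)), ?_, ?_, ?_, ?_, ?_⟩
  · exact (isOpen_U _ _).preimage Φ.symm.continuous
  · exact (convex_U (G ⊓ H) (H \ G)).linear_preimage
      ((Φ.symm : (Fin d → ℝ) →L[ℝ] Sp (G ⊓ H)) : (Fin d → ℝ) →ₗ[ℝ] Sp (G ⊓ H))
  · intro b hb
    apply ContDiffAt.contDiffWithinAt
    exact ContDiffAt.comp b (sg_contDiffAt _ _ hb) Φ.symm.contDiff.contDiffAt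
  · ext S
    constructor
    · rintro ⟨b, hb, rfl⟩
      exact hall _ hb
    · intro hS
      obtain ⟨h1, h2⟩ := corr_param G H hS
      refine ⟨Φ (pj (G ⊓ H) S), ?_, ?_⟩
      · show Φ.symm (Φ (pj (G ⊓ H) S)) ∈ U (G ⊓ H) (H \ G)
        rw [Φ.symm_apply_apply]; exact h1
      · show sg (G ⊓ H) (H \ G) (Φ.symm (Φ (pj (G ⊓ H) S))) = S
        rw [Φ.symm_apply_apply]; exact h2
  · intro b hb
    show Φ (pj (G ⊓ H) (sg (G ⊓ H) (H \ G) (Φ.symm b))) = b
    rw [pj_sg G H hb, Φ.apply_symm_apply]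

end

end Pool.Agent.H51.DM
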